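import Pool.Agent.Results.MP_631487_nt.TwistsAtRealMultiples

/-!
# Sign patterns of newforms: the twists given by continued fractions and good approximations

Let `f_0, f_1, …` be forms as in the problem. There are `C, c > 0` such that the pattern law (see
`TwistsAtRealMultiples`) holds for the twists by the integers `± n`, for all `x` with `log ^ C n ≤ x ≤ n ^ c`, for the
`n` given by good rational approximations: for example, for almost every real number `α`, for all integers
`(u, v) ≠ (0, 0)` and all but finitely many convergents `p / q` of the continued fraction of `α`, for `n = |u p + v q|`.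
-/

set_option autoImplicit false

namespace Pool.Agent.Results.MP_631487_nt.GoodApproximations

open Pool.Agent.Results.MP_631487_nt.SignPatterns (IsForm)
open Pool.Agent.Results.MP_631487_nt.TwistsAtRealMultiples (Fails law)
open Pool.Agent.Q44.CF (AtApproximations)

/-- the pattern law holds for the twists by `n` and by `-n` at all `x` with `log ^ C n ≤ x ≤ n ^ c` -/
def Good (r : ℕ) (κ ε : ℝ) (a : ℕ → ℕ → ℤ) (C c : ℝ) (n : ℕ) : Prop :=
  ∀ D : ℤ, D.natAbs = n → ∀ x : ℕ, (Real.log n) ^ C ≤ x → (x : ℝ) ≤ (n : ℝ) ^ c → ¬ Fails r κ ε a x D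

/-- **Theorem.** Let `f_0, f_1, …` be forms as in the problem with the coefficients `a i`. There are `C > 0` and
`0 < c ≤ 1` such that the integers `n` given by good approximations in the sense of `AtApproximations (1 - c)` are
`Good`: in particular, for almost every real number `α`, for all integers `u`, `v`, not both zero, and all but finitely
many convergents `p / q` of `α`, the pattern law holds for the twists by `± (u p + v q)`. -/
theorem result (r : ℕ) (hr : 0 < r) (κ ε : ℝ) (hκ : 0 ≤ κ) (hε : 0 < ε) (M : ℕ → ℕ) (a : ℕ → ℕ → ℤ)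
    (ha : ∀ i, IsForm (M i) (a i)) :
    ∃ C c : ℝ, 0 < C ∧ 0 < c ∧ c ≤ 1 ∧ AtApproximations (1 - c) (Good r κ ε a C c) := by
  obtain ⟨C, c, hC, hc, hc1, hP⟩ := Pool.Agent.Q233.TR.ps_law _ (law r hr κ ε hκ hε M a ha)
  refine ⟨C, c, hC, hc, hc1, Pool.Agent.Q44.CF.at_of (by linarith) hP fun n hn => ?_⟩
  unfold Good at hn
  push Not at hn
  obtain ⟨D, hD, x, hx1, hx2, hf⟩ := hn
  have e : |(D : ℝ)| = n := by rw [← hD, Nat.cast_natAbs, Int.cast_abs]
  exact ⟨D, hD, x, by rw [e]; exact hx1, by rw [e]; exact hx2, hf⟩

end Pool.Agent.Results.MP_631487_nt.GoodApproximations
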