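import Pool.Agent.Q233.TL.Ar

/-!
# Patterns of signs at consecutive primes with prescribed absolute coefficients, for twists of newforms

Let `f_0, f_1, …` be forms as in the problem (weight `2`, integer coefficients `a_i(n)`, Hecke eigenforms, not
of CM type, any levels). For almost all vectors `(D_1, …, D_k)` and simultaneously for all `f_{i_1}, …, f_{i_k}`,
`i_j ≤ x ^ κ`, and all nonzero integers `v_1, …, v_k`: along the primes `p ≤ x` with `|a_{i_j}(p)| = |v_j|` for
all `j`, all patterns of the signs of the coefficients `(D_j / p) a_{i_j}(p)` of the twists at `r` consecutive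
such primes occur equally often, with square root error.
-/

set_option autoImplicit false

namespace Pool.Agent.Results.MP_631487_nt.SignPatterns

open Finset Pool.Agent.W406.TW Pool.Agent.Q233.TL Pool.Agent.Q233.TL.Tup

/-- `a` is the sequence of the Fourier coefficients of a normalized cuspidal Hecke eigenform of weight
`2` on `Γ₀(M)` with integer coefficients which is not of CM type -/
def IsForm (M : ℕ) (a : ℕ → ℤ) : Prop :=
  0 < M ∧ (∃ f : CuspForm (CongruenceSubgroup.Gamma0 M) 2, ∀ τ : UpperHalfPlane, HasSum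
    (fun n : ℕ => (a (n + 1) : ℂ) *
      Complex.exp (2 * (Real.pi : ℂ) * Complex.I * ((n : ℂ) + 1) * (τ : ℂ))) (f τ)) ∧
  a 1 = 1 ∧
  (∀ m n : ℕ, Nat.Coprime m n → a (m * n) = a m * a n) ∧
  (∀ p k : ℕ, p.Prime → ¬ p ∣ M →
    a (p ^ (k + 2)) = a p * a (p ^ (k + 1)) - (p : ℤ) * a (p ^ k)) ∧
  (∀ p k : ℕ, p.Prime → p ∣ M → a (p ^ (k + 1)) = a p * a (p ^ k)) ∧
  ¬ ∃ (M' : ℕ) (χ : DirichletCharacter ℂ M'), 0 < M' ∧ χ ≠ 1 ∧ χ ^ 2 = 1 ∧
    {p : ℕ | p.Prime ∧ χ (p : ZMod M') * (a p : ℂ) ≠ (a p : ℂ)}.Finite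

/-- the odd primes `p ≤ x` with `|b_j(p)| = |v_j|` for all `j` -/
noncomputable def primesAbs {k : ℕ} (b : Fin k → ℕ → ℤ) (v : Fin k → ℤ) (x : ℕ) : Finset ℕ := by
  classical
  exact (Icc 1 x).filter fun p : ℕ => p.Prime ∧ p ≠ 2 ∧ ∀ j, |b j p| = |v j|

/-- the number of the `r`-tuples `τ` of consecutive elements of `primesAbs` such that for all `i < r`, `j < k`
the prime `τ i` does not divide `D j` and the coefficient `(D j / τ i) b_j(τ i)` of the twist is
`η (i, j) v_j` -/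
noncomputable def patCount {r k : ℕ} (b : Fin k → ℕ → ℤ) (D v : Fin k → ℤ) (η : Fin r × Fin k → ℤ)
    (x : ℕ) : ℕ := by
  classical
  exact ((consec (primesAbs b v x) r).filter fun τ => (∀ i j, ¬ (τ i : ℤ) ∣ D j) ∧
    ∀ z : Fin r × Fin k, jacobiSym (D z.2) (τ z.1) * b z.2 (τ z.1) = η z * v z.2).card

open Classical in
lemma mem_PA {k : ℕ} {b : Fin k → ℕ → ℤ} {v : Fin k → ℤ} {x p : ℕ} : p ∈ primesAbs b v x ↔
    (1 ≤ p ∧ p ≤ x) ∧ p.Prime ∧ p ≠ 2 ∧ ∀ j, |b j p| = |v j| := by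
  unfold primesAbs
  rw [mem_filter, mem_Icc]

/-- predicate for the twist law -/
def Ev {r k : ℕ} (b : Fin k → ℕ → ℤ) (v : Fin k → ℤ) (η : Fin r × Fin k → ℤ) (τ : Fin r → ℕ)
    (s : Fin r × Fin k → ℤ) : Prop :=
  ∀ z, s z * b z.2 (τ z.1) = η z * v z.2

/-- exactly one array of signs realises a given pattern -/
lemma unique_sign {r k : ℕ} {b : Fin k → ℕ → ℤ} {v : Fin k → ℤ} (hv : ∀ j, v j ≠ 0)
    {η : Fin r × Fin k → ℤ} (hη : η ∈ Sgt r k) {x : ℕ} {τ : Fin r → ℕ}
    (hτ : τ ∈ consec (primesAbs b v x) r) [DecidablePred fun s => Ev b v η τ s] :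
    ((Sgt r k).filter fun s => Ev b v η τ s).card = 1 := by
  classical
  have hd : ∀ z : Fin r × Fin k, ∃ δ : ℤ, (δ = 1 ∨ δ = -1) ∧ b z.2 (τ z.1) = δ * v z.2 := by
    intro z
    rcases abs_eq_abs.1 ((mem_PA.1 (consec_mem hτ z.1)).2.2.2 z.2) with h | h
    · exact ⟨1, Or.inl rfl, by rw [h, one_mul]⟩
    · exact ⟨-1, Or.inr rfl, by rw [h, neg_one_mul]⟩
  choose δ hδ hδt using hd
  rw [card_eq_one]
  refine ⟨fun z => η z * δ z, ?_⟩
  ext s
  rw [mem_filter, mem_singleton]
  constructor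
  · rintro ⟨hs, h⟩
    funext z
    have h1 := h z
    rw [hδt] at h1
    have h2 : s z * δ z = η z := by
      have : (s z * δ z) * v z.2 = η z * v z.2 := by rw [mul_assoc]; exact h1
      exact mul_right_cancel₀ (hv z.2) this
    rw [← h2, mul_assoc]
    rcases hδ z with h3 | h3 <;> rw [h3] <;> ring
  · rintro rfl
    constructor
    · rw [mem_Sgt]
      intro z
      rcases mem_Sgt.1 hη z with h1 | h1 <;> rcases hδ z with h2 | h2 <;> rw [h1, h2] <;> simp
    · intro z
      rw [hδt]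
      have h3 : δ z * δ z = 1 := by
        rcases hδ z with h2 | h2 <;> rw [h2] <;> norm_num
      change (η z * δ z) * (δ z * v z.2) = η z * v z.2
      linear_combination η z * v z.2 * h3

theorem result (r k : ℕ) (hr : 0 < r) (κ ε : ℝ) (hκ : 0 ≤ κ) (hε : 0 < ε) :
    ∃ C c : ℝ, 0 < C ∧ 0 < c ∧ ∃ N₀ : ℕ, ∀ N : ℕ, N₀ ≤ N → ∀ (M : ℕ → ℕ) (a : ℕ → ℕ → ℤ),
      (∀ i, IsForm (M i) (a i)) →
      ({D : Fin k → ℤ | (∀ j, D j ≠ 0 ∧ |D j| ≤ N) ∧ ∃ x : ℕ, (Real.log N) ^ C ≤ x ∧
        (x : ℝ) ≤ (N : ℝ) ^ c ∧ ∃ i : Fin k → ℕ, (∀ j, (i j : ℝ) ≤ (x : ℝ) ^ κ) ∧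
        ∃ v : Fin k → ℤ, (∀ j, v j ≠ 0) ∧ ∃ η : Fin r × Fin k → ℤ, (∀ z, η z = 1 ∨ η z = -1) ∧
        √((consec (primesAbs (fun j => a (i j)) v x) r).card : ℝ) * (x : ℝ) ^ ε <
          |(patCount (fun j => a (i j)) D v η x : ℝ) -
            ((consec (primesAbs (fun j => a (i j)) v x) r).card : ℝ) / 2 ^ (r * k)|}.ncard : ℝ) ≤
        (N : ℝ) ^ ((k : ℝ) - c) := by
  classical
  obtain ⟨C, c, hC, hc, N₀, h⟩ := Tup.law r k ((κ + 1) * k + (1 + (k + (r * k : ℕ)))) ε (by positivity) hε 4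
  refine ⟨C, c, hC, hc, N₀, fun N hN M a _ => ?_⟩
  refine le_trans ?_ (h N hN ((Fin k → ℕ) × ℕ × (Fin k → ℤ) × (Fin r × Fin k → ℤ))
    (fun x => (Fintype.piFinset fun _ : Fin k => range (⌊(x : ℝ) ^ κ⌋₊ + 1)) ×ˢ Icc 1 x ×ˢ Sg k ×ˢ Sgt r k)
    (fun l x => consec (primesAbs (fun j => a (l.1 j)) (fun j => l.2.2.1 j * a (l.1 j) l.2.1) x) r)
    (fun l => Ev (fun j => a (l.1 j)) (fun j => l.2.2.1 j * a (l.1 j) l.2.1) l.2.2.2) ?_)
  · refine Nat.cast_le.2 (Set.ncard_le_ncard ?_ ?_)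
    · rintro D ⟨hD, x, hx1, hx2, i, hi, v, hv, η, hη, hlt⟩
      have hηS : η ∈ Sgt r k := mem_Sgt.2 hη
      -- some prime is counted
      have hex : ∃ p ∈ Icc 1 x, ∃ s ∈ Sg k, ∀ j, s j * a (i j) p = v j := by
        by_contra hcon
        push Not at hcon
        have hem : primesAbs (fun j => a (i j)) v x = ∅ := by
          rw [eq_empty_iff_forall_notMem]
          intro p hp
          obtain ⟨hp1, _, _, h2⟩ := mem_PA.1 hp
          have h6 := card_signs (fun j => a (i j) p) v hv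
          rw [if_pos h2] at h6
          obtain ⟨s, hs⟩ := card_pos.1 (by rw [h6]; exact Nat.one_pos)
          rw [mem_filter] at hs
          obtain ⟨j, hj⟩ := hcon p (mem_Icc.2 hp1) s hs.1
          exact hj (hs.2 j)
        have hem2 : consec (primesAbs (fun j => a (i j)) v x) r = ∅ := by
          rw [← card_eq_zero, consec_card hr, hem, card_empty]
          omega
        have h3 : patCount (fun j => a (i j)) D v η x = 0 := by
          unfold patCount
          rw [hem2]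
          simp
        rw [h3, hem2] at hlt
        simp at hlt
      obtain ⟨p, hp, s, hs, hps⟩ := hex
      refine ⟨hD, x, hx1, hx2, (i, p, s, η), ?_, ?_⟩
      · simp only [mem_product]
        refine ⟨?_, hp, hs, hηS⟩
        rw [Fintype.mem_piFinset]
        intro j
        rw [mem_range]
        exact Nat.lt_succ_of_le (Nat.le_floor (hi j))
      · have hvv : (fun j => s j * a (i j) p) = v := funext hps
        simp only [hvv]
        set P := primesAbs (fun j => a (i j)) v x with hP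
        have hu : ∀ τ ∈ consec P r, ((Sgt r k).filter fun s => Ev (fun j => a (i j)) v η τ s).card = 1 :=
          fun τ hτ => unique_sign hv hηS hτ
        have e1 : Tup.X (Ev (fun j => a (i j)) v η) (consec P r) = consec P r := by
          unfold Tup.X
          refine filter_true_of_mem fun τ hτ => ?_
          obtain ⟨s, hs⟩ := card_pos.1 (by rw [hu τ hτ]; exact Nat.one_pos)
          exact ⟨s, (mem_filter.1 hs).1, (mem_filter.1 hs).2⟩
        have e2 : Tup.mean (Ev (fun j => a (i j)) v η) (consec P r) =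
            ((consec P r).card : ℝ) / 2 ^ (r * k) := by
          unfold Tup.mean
          congr 1
          rw [sum_congr rfl fun τ hτ => by rw [hu τ hτ]]
          simp
        have e3 : Tup.cnt (Ev (fun j => a (i j)) v η) (consec P r) D =
            patCount (fun j => a (i j)) D v η x := by
          unfold Tup.cnt patCount
          exact congrArg card (filter_congr fun τ _ => Iff.rfl)
        rw [e1, e2, e3]
        exact hlt
    · refine Set.Finite.subset (Set.Finite.pi (t := fun _ : Fin k => Set.Icc (-(N : ℤ)) N)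
        (fun _ => Set.finite_Icc _ _)) ?_
      rintro D ⟨hD, _⟩ j _
      exact abs_le.1 (hD j).2
  · intro x hx
    refine ⟨?_, fun l _ => good_consec hr fun p hp => ⟨(mem_PA.1 hp).2.1, (mem_PA.1 hp).2.2.1,
      (mem_PA.1 hp).1.2⟩⟩
    have hx4 : (4 : ℝ) ≤ x := by exact_mod_cast hx
    have hx0 : (0 : ℝ) < x := by linarith
    simp only [card_product, Nat.cast_mul]
    rw [Real.rpow_add hx0, Real.rpow_add hx0, Real.rpow_add hx0, Real.rpow_one]
    have h1 : (((Fintype.piFinset fun _ : Fin k => range (⌊(x : ℝ) ^ κ⌋₊ + 1)).card : ℕ) : ℝ) ≤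
        (x : ℝ) ^ ((κ + 1) * (k : ℝ)) := by
      rw [Fintype.card_piFinset]
      simp only [prod_const, card_univ, Fintype.card_fin]
      push_cast
      rw [Real.rpow_mul hx0.le, Real.rpow_natCast]
      exact pow_le_pow_left₀ (by positivity) (range_card κ hκ x (by omega)) k
    have h2 : (((Icc 1 x).card : ℕ) : ℝ) ≤ x := by simp
    have h3 : ((Sg k).card : ℝ) ≤ (x : ℝ) ^ (k : ℝ) := by
      rw [card_Sg, Real.rpow_natCast]
      push_cast
      exact pow_le_pow_left₀ (by norm_num) (by linarith) _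
    have h4 : ((Sgt r k).card : ℝ) ≤ (x : ℝ) ^ ((r * k : ℕ) : ℝ) := by
      rw [card_Sgt, Real.rpow_natCast]
      push_cast
      exact pow_le_pow_left₀ (by norm_num) (by linarith) _
    rw [Nat.cast_mul] at h4
    refine mul_le_mul h1 (mul_le_mul h2 (mul_le_mul h3 h4 ?_ ?_) ?_ ?_) ?_ ?_ <;> positivity

end Pool.Agent.Results.MP_631487_nt.SignPatterns
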