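import Mathlib
import Pool.Agent.Q233.TL.Curves

set_option autoImplicit false

/-! # Prescribed coefficients of almost all quadratic twists of a sequence of newforms

Let `f_0, f_1, …` be any sequence of forms as in the problem (weight `2`, integer coefficients,
Hecke eigenforms, not of CM type, of any levels), with coefficients `a_i(n)`. For all but at most
`N ^ (k - c)` of the vectors `(D_1, …, D_k)` of nonzero integers of modulus at most `N`, the following
holds for all `x` with `(log N) ^ C ≤ x ≤ N ^ c`, all indices `i_1, …, i_k ≤ x ^ κ` and all nonzero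
integers `v_1, …, v_k`: the number of the odd primes `p ≤ x` at which the coefficient
`(D_j / p) a_{i_j}(p)` of the twist of `f_{i_j}` by `(D_j / ·)` is `v_j` for all `j`, is
`n / 2 ^ k + O(√n x ^ ε)`, where `n` is the number of the odd primes `p ≤ x` with
`|a_{i_j}(p)| = |v_j|` for all `j`.
-/

namespace Pool.Agent.Results.MP_631487_nt.TwistedNewforms

open Finset Pool.Agent.W406.TW Pool.Agent.Q233.TL

/-- `a` is the sequence of the Fourier coefficients of a normalized cuspidal Hecke eigenform of weight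
`2` on `Γ₀(M)` with integer coefficients which is not of CM type -/
def IsForm (M : ℕ) (a : ℕ → ℤ) : Prop :=
  0 < M ∧ (∃ f : CuspForm (CongruenceSubgroup.Gamma0 M) 2, ∀ τ : UpperHalfPlane, HasSum
    (fun n : ℕ => (a (n + 1) : ℂ) *
      Complex.exp (2 * (Real.pi : ℂ) * Complex.I * ((n : ℂ) + 1) * (τ : ℂ))) (f τ)) ∧
  a 1 = 1 ∧
  (∀ m n : ℕ, Nat.Coprime m n → a (m * n) = a m * a n) ∧
  (∀ p k : ℕ, p.Prime → ¬ p ∣ M →
    a (p ^ (k + 2)) = a p * a (p ^ (k + 1)) - (p : ℤ) * a (p ^ k)) ∧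
  (∀ p k : ℕ, p.Prime → p ∣ M → a (p ^ (k + 1)) = a p * a (p ^ k)) ∧
  ¬ ∃ (M' : ℕ) (χ : DirichletCharacter ℂ M'), 0 < M' ∧ χ ≠ 1 ∧ χ ^ 2 = 1 ∧
    {p : ℕ | p.Prime ∧ χ (p : ZMod M') * (a p : ℂ) ≠ (a p : ℂ)}.Finite

/-- the number of the odd primes `p ≤ x` not dividing any `D j` with `(D_j / p) b_j(p) = v_j` for
all `j` -/
noncomputable def twistCount {k : ℕ} (b : Fin k → ℕ → ℤ) (D v : Fin k → ℤ) (x : ℕ) : ℕ := by
  classical
  exact ((Icc 1 x).filter fun p : ℕ => p.Prime ∧ p ≠ 2 ∧ (∀ j, ¬ (p : ℤ) ∣ D j) ∧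
    ∀ j, jacobiSym (D j) p * b j p = v j).card

/-- the number of the odd primes `p ≤ x` with `|b_j(p)| = |v_j|` for all `j` -/
noncomputable def absCount {k : ℕ} (b : Fin k → ℕ → ℤ) (v : Fin k → ℤ) (x : ℕ) : ℕ := by
  classical
  exact ((Icc 1 x).filter fun p : ℕ => p.Prime ∧ p ≠ 2 ∧ ∀ j, |b j p| = |v j|).card

/-- the predicate for the twist law -/
def Ev {k : ℕ} (b : Fin k → ℕ → ℤ) (v : Fin k → ℤ) (p : ℕ) (s : Fin k → ℤ) : Prop :=
  ∀ j, s j * b j p = v j

lemma X_card {k : ℕ} (b : Fin k → ℕ → ℤ) (v : Fin k → ℤ) (hv : ∀ j, v j ≠ 0) (x : ℕ) :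
    (X (Ev b v) x).card = absCount b v x := by
  classical
  unfold absCount
  congr 1
  ext p
  rw [mem_X, mem_filter, mem_Icc]
  constructor
  · rintro ⟨h1, h2, h3, s, hs, h6⟩
    refine ⟨h1, h2, h3, fun j => ?_⟩
    unfold Sg at hs
    have h7 := (Fintype.mem_piFinset.1 hs) j
    rw [mem_insert, mem_singleton] at h7
    rw [← h6 j]
    rcases h7 with h7 | h7 <;> rw [h7] <;> simp
  · rintro ⟨h1, h2, h3, h5⟩
    have h6 := card_signs (fun j => b j p) v hv
    rw [if_pos h5] at h6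
    obtain ⟨s, hs⟩ := card_pos.1 (by rw [h6]; exact Nat.one_pos)
    rw [mem_filter] at hs
    exact ⟨h1, h2, h3, s, hs.1, hs.2⟩

lemma mean_card {k : ℕ} (b : Fin k → ℕ → ℤ) (v : Fin k → ℤ) (hv : ∀ j, v j ≠ 0) (x : ℕ) :
    mean (Ev b v) x = (absCount b v x : ℝ) / 2 ^ k := by
  classical
  unfold mean absCount
  congr 1
  rw [card_filter]
  push_cast
  rw [sum_filter]
  refine sum_congr rfl fun p _ => ?_
  by_cases h1 : p.Prime ∧ p ≠ 2
  · rw [if_pos h1]
    have h3 := card_signs (fun j => b j p) v hv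
    have h4 : (Sg k).filter (fun s => Ev b v p s) = (Sg k).filter (fun s => ∀ j, s j * b j p = v j) :=
      filter_congr fun s _ => Iff.rfl
    rw [h4, h3]
    by_cases h5 : ∀ j, |b j p| = |v j|
    · rw [if_pos h5, if_pos ⟨h1.1, h1.2, h5⟩]; simp
    · rw [if_neg h5, if_neg (fun h => h5 h.2.2)]; simp
  · rw [if_neg h1, if_neg (fun h => h1 ⟨h.1, h.2.1⟩)]

lemma cnt_eq {k : ℕ} (b : Fin k → ℕ → ℤ) (v D : Fin k → ℤ) (x : ℕ) :
    Q233.TL.cnt (Ev b v) D x = twistCount b D v x := by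
  classical
  unfold Q233.TL.cnt twistCount
  congr 1
  apply filter_congr
  intro p _
  exact Iff.rfl

theorem result (k : ℕ) (κ ε : ℝ) (hκ : 0 ≤ κ) (hε : 0 < ε) :
    ∃ C c : ℝ, 0 < C ∧ 0 < c ∧ ∃ N₀ : ℕ, ∀ N : ℕ, N₀ ≤ N → ∀ (M : ℕ → ℕ) (a : ℕ → ℕ → ℤ),
      (∀ i, IsForm (M i) (a i)) →
      ({D : Fin k → ℤ | (∀ j, D j ≠ 0 ∧ |D j| ≤ N) ∧ ∃ x : ℕ, (Real.log N) ^ C ≤ x ∧
        (x : ℝ) ≤ (N : ℝ) ^ c ∧ ∃ i : Fin k → ℕ, (∀ j, (i j : ℝ) ≤ (x : ℝ) ^ κ) ∧
        ∃ v : Fin k → ℤ, (∀ j, v j ≠ 0) ∧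
        √(absCount (fun j => a (i j)) v x : ℝ) * (x : ℝ) ^ ε <
          |(twistCount (fun j => a (i j)) D v x : ℝ) -
            absCount (fun j => a (i j)) v x / 2 ^ k|}.ncard : ℝ) ≤ (N : ℝ) ^ ((k : ℝ) - c) := by
  classical
  obtain ⟨C, c, hC, hc, N₀, h⟩ := law k ((κ + 1) * k + (1 + k)) ε (by positivity) hε 3
  refine ⟨C, c, hC, hc, N₀, fun N hN M a _ => ?_⟩
  refine le_trans ?_ (h N hN ((Fin k → ℕ) × ℕ × (Fin k → ℤ))
    (fun x => (Fintype.piFinset fun _ : Fin k => range (⌊(x : ℝ) ^ κ⌋₊ + 1)) ×ˢ Icc 1 x ×ˢ Sg k)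
    (fun l => Ev (fun j => a (l.1 j)) (fun j => l.2.2 j * a (l.1 j) l.2.1)) ?_)
  · refine Nat.cast_le.2 (Set.ncard_le_ncard ?_ ?_)
    · rintro D ⟨hD, x, hx1, hx2, i, hi, v, hv, hlt⟩
      -- some prime is counted
      have hex : ∃ p ∈ Icc 1 x, ∃ s ∈ Sg k, ∀ j, s j * a (i j) p = v j := by
        by_contra hcon
        push Not at hcon
        have h1 : absCount (fun j => a (i j)) v x = 0 := by
          unfold absCount
          rw [card_eq_zero]
          apply filter_eq_empty_iff.2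
          rintro p hp ⟨_, _, h2⟩
          have h6 := card_signs (fun j => a (i j) p) v hv
          rw [if_pos h2] at h6
          obtain ⟨s, hs⟩ := card_pos.1 (by rw [h6]; exact Nat.one_pos)
          rw [mem_filter] at hs
          obtain ⟨j, hj⟩ := hcon p hp s hs.1
          exact hj (hs.2 j)
        have h2 : twistCount (fun j => a (i j)) D v x = 0 := by
          unfold twistCount
          rw [card_eq_zero]
          apply filter_eq_empty_iff.2
          rintro p hp ⟨hpp, _, h3, h4⟩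
          obtain ⟨j, hj⟩ := hcon p hp (fun j => jacobiSym (D j) p) (by
            unfold Sg
            rw [Fintype.mem_piFinset]
            intro j
            rcases jac_pm hpp (h3 j) with h5 | h5 <;> simp [h5])
          exact hj (h4 j)
        rw [h1, h2] at hlt
        simp at hlt
      obtain ⟨p, hp, s, hs, hps⟩ := hex
      refine ⟨hD, x, hx1, hx2, (i, p, s), ?_, ?_⟩
      · rw [mem_product, mem_product]
        refine ⟨?_, hp, hs⟩
        rw [Fintype.mem_piFinset]
        intro j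
        rw [mem_range]
        exact Nat.lt_succ_of_le (Nat.le_floor (hi j))
      · have hvv : (fun j => s j * a (i j) p) = v := funext hps
        simp only [hvv]
        rw [X_card _ v hv, mean_card _ v hv, cnt_eq]
        exact hlt
    · refine Set.Finite.subset (Set.Finite.pi (t := fun _ : Fin k => Set.Icc (-(N : ℤ)) N)
        (fun _ => Set.finite_Icc _ _)) ?_
      rintro D ⟨hD, _⟩ j _
      exact abs_le.1 (hD j).2
  · intro x hx
    have hx3 : (3 : ℝ) ≤ x := by exact_mod_cast hx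
    have hx0 : (0 : ℝ) < x := by linarith
    rw [card_product, card_product, Nat.cast_mul, Nat.cast_mul, Real.rpow_add hx0, Real.rpow_add hx0,
      Real.rpow_one]
    refine mul_le_mul ?_ (mul_le_mul ?_ ?_ (by positivity) (by positivity)) (by positivity)
      (by positivity)
    · rw [Fintype.card_piFinset]
      simp only [prod_const, card_univ, Fintype.card_fin]
      push_cast
      rw [Real.rpow_mul hx0.le, Real.rpow_natCast]
      exact pow_le_pow_left₀ (by positivity) (range_card κ hκ x hx) k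
    · simp
    · rw [card_Sg, Real.rpow_natCast]
      push_cast
      exact pow_le_pow_left₀ (by norm_num) (by linarith) k

end Pool.Agent.Results.MP_631487_nt.TwistedNewforms
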