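import Pool.Agent.Results.MP_631487_nt.SignPatterns
import Pool.Agent.Q233.TR.Base

/-!
# Sign patterns of newforms: ALL quadratic twists in windows at the multiples and dilates of almost every real number

Let `f_0, f_1, …` be forms as in the problem (weight `2`, integer coefficients `a_i(n)`, Hecke eigenforms, not of CM
type, any levels). The pattern law for the twist by `D ≠ 0` at `x` says: for all `i ≤ x ^ κ`, all integers `v ≠ 0` and all
`η ∈ {1, -1} ^ r`, the number of the `r`-tuples of consecutive odd primes `p ≤ x` with `|a_i(p)| = |v|` along which the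
coefficients `(D / p) a_i(p)` of the twist of `f_i` by `D` are `η_1 v, …, η_r v` is `n / 2 ^ r`, `n` the number of all the
tuples, up to `√n x ^ ε`.

1. For `0 < θ < 1`, large `N` and all real `y` in `[N ^ (1 - θ), 2 N ^ (1 - θ)]` outside a set of measure at most
   `N ^ (1 - θ - c)`: for all `k ≤ N ^ θ` with at most `N ^ (θ - c)` exceptions, the law holds for ALL `D ≠ 0` with
   `||D| - k y| ≤ N ^ c` at all `x` with `log ^ C N ≤ x ≤ N ^ c`.
2. For every sequence `b_k ≥ k ^ (1 / c)` and almost every `α > 0`, for all large `k` the law holds for ALL `D ≠ 0` with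
   `||D| - α b_k| ≤ b_k ^ c` at all `x` with `log ^ C |D| ≤ x ≤ |D| ^ c`.
-/

set_option autoImplicit false

namespace Pool.Agent.Results.MP_631487_nt.TwistsAtRealMultiples

open Finset MeasureTheory Filter Pool.Agent.Q233.TL.Tup Pool.Agent.Q233.TR
open Pool.Agent.Results.MP_631487_nt.SignPatterns (IsForm)

/-- the odd primes `p ≤ x` with `|b(p)| = |v|` -/
noncomputable def primesAbs (b : ℕ → ℤ) (v : ℤ) (x : ℕ) : Finset ℕ := by
  classical
  exact (Icc 1 x).filter fun p : ℕ => p.Prime ∧ p ≠ 2 ∧ |b p| = |v|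

/-- the number of the `r`-tuples `τ` of consecutive elements of `primesAbs` -/
noncomputable def tupleCount (r : ℕ) (b : ℕ → ℤ) (v : ℤ) (x : ℕ) : ℕ := (consec (primesAbs b v x) r).card

/-- the number of the `r`-tuples `τ` of consecutive elements of `primesAbs` such that for all `j` the prime `τ j` does not
divide `D` and the coefficient `(D / τ j) b(τ j)` of the twist is `η j v` -/
noncomputable def patCount {r : ℕ} (b : ℕ → ℤ) (D v : ℤ) (η : Fin r → ℤ) (x : ℕ) : ℕ := by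
  classical
  exact ((consec (primesAbs b v x) r).filter fun τ =>
    ∀ j, ¬ (τ j : ℤ) ∣ D ∧ jacobiSym D (τ j) * b (τ j) = η j * v).card

/-- the pattern law fails for the twist by `D` at `x` -/
def Fails (r : ℕ) (κ ε : ℝ) (a : ℕ → ℕ → ℤ) (x : ℕ) (D : ℤ) : Prop :=
  ∃ i : ℕ, (i : ℝ) ≤ (x : ℝ) ^ κ ∧ ∃ v : ℤ, v ≠ 0 ∧ ∃ η : Fin r → ℤ, (∀ j, η j = 1 ∨ η j = -1) ∧
    √(tupleCount r (a i) v x : ℝ) * (x : ℝ) ^ ε < |(patCount (a i) D v η x : ℝ) - tupleCount r (a i) v x / 2 ^ r|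

lemma primesAbs_eq (b : ℕ → ℤ) (v : ℤ) (x : ℕ) :
    SignPatterns.primesAbs (k := 1) (fun _ => b) (fun _ => v) x = primesAbs b v x := by
  classical
  unfold SignPatterns.primesAbs primesAbs
  ext p
  simp

lemma patCount_eq {r : ℕ} (b : ℕ → ℤ) (D v : ℤ) (η : Fin r → ℤ) (x : ℕ) :
    SignPatterns.patCount (k := 1) (fun _ => b) (fun _ => D) (fun _ => v) (fun z : Fin r × Fin 1 => η z.1) x =
      patCount b D v η x := by
  classical
  unfold SignPatterns.patCount patCount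
  rw [primesAbs_eq]
  refine congrArg Finset.card ?_
  ext τ
  simp only [mem_filter, Prod.forall]
  constructor
  · rintro ⟨h1, h2, h3⟩
    exact ⟨h1, fun j => ⟨h2 j 0, h3 j 0⟩⟩
  · rintro ⟨h1, h2⟩
    exact ⟨h1, fun i _ => (h2 i).1, fun i _ => (h2 i).2⟩

/-- the law for almost all twists, from `SignPatterns` -/
theorem law (r : ℕ) (hr : 0 < r) (κ ε : ℝ) (hκ : 0 ≤ κ) (hε : 0 < ε) (M : ℕ → ℕ) (a : ℕ → ℕ → ℤ)
    (ha : ∀ i, IsForm (M i) (a i)) : Law (Fails r κ ε a) := by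
  classical
  obtain ⟨C, c, hC, hc, N₀, h⟩ := SignPatterns.result r 1 hr κ ε hκ hε
  refine ⟨C, c, hC, hc, N₀, fun N hN => ?_⟩
  have h1 := h N hN M a ha
  rw [Nat.cast_one] at h1
  refine le_trans ?_ h1
  have hfin : {D : Fin 1 → ℤ | (∀ j, D j ≠ 0 ∧ |D j| ≤ N) ∧ ∃ x : ℕ, (Real.log N) ^ C ≤ x ∧
        (x : ℝ) ≤ (N : ℝ) ^ c ∧ ∃ i : Fin 1 → ℕ, (∀ j, (i j : ℝ) ≤ (x : ℝ) ^ κ) ∧
        ∃ v : Fin 1 → ℤ, (∀ j, v j ≠ 0) ∧ ∃ η : Fin r × Fin 1 → ℤ, (∀ z, η z = 1 ∨ η z = -1) ∧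
        √((consec (SignPatterns.primesAbs (fun j => a (i j)) v x) r).card : ℝ) * (x : ℝ) ^ ε <
          |(SignPatterns.patCount (fun j => a (i j)) D v η x : ℝ) -
            ((consec (SignPatterns.primesAbs (fun j => a (i j)) v x) r).card : ℝ) / 2 ^ (r * 1)|}.Finite := by
    refine (Set.Finite.pi (t := fun _ : Fin 1 => Set.Icc (-(N : ℤ)) N) fun _ => Set.finite_Icc _ _).subset ?_
    rintro D ⟨hD, -⟩
    rw [Set.mem_pi]
    exact fun j _ => Set.mem_Icc.2 (abs_le.1 (hD j).2)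
  refine Nat.cast_le.2 ?_
  refine Set.ncard_le_ncard_of_injOn (fun D : ℤ => fun _ : Fin 1 => D) ?_ ?_ hfin
  · rintro D ⟨hD0, hDN, x, hx1, hx2, i, hi, v, hv, η, hη, hlt⟩
    refine ⟨fun _ => ⟨hD0, hDN⟩, x, hx1, hx2, fun _ => i, fun _ => hi, fun _ => v, fun _ => hv,
      fun z => η z.1, fun z => hη z.1, ?_⟩
    rw [primesAbs_eq, patCount_eq, mul_one]
    exact hlt
  · intro D _ D' _ hDD
    exact congrFun hDD 0

open Pool.Agent.Q319.DR (twistExceptions)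

/-- **Theorem.** Let `f_0, f_1, …` be forms as in the problem with the coefficients `a i`.
1. For `0 < θ < 1` there are `C, c > 0` such that for all large `N` there is a set `E` of measure at most
   `N ^ (1 - θ - c)` such that for all real `y` with `N ^ (1 - θ) ≤ y ≤ 2 N ^ (1 - θ)` which are not in `E`, for all
   `k ≤ N ^ θ` but at most `N ^ (θ - c)`, the pattern law holds for ALL `D ≠ 0` with `||D| - k y| ≤ N ^ c` at all `x` with
   `log ^ C N ≤ x ≤ N ^ c`.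
2. There are `C, c > 0` such that for every sequence of real numbers `b_k ≥ max(1, k ^ (1 / c))` and almost every
   `α > 0`, for all large `k` the pattern law holds for ALL `D ≠ 0` with `||D| - α b_k| ≤ b_k ^ c` at all `x` with
   `log ^ C |D| ≤ x ≤ |D| ^ c`. -/
theorem result (r : ℕ) (hr : 0 < r) (κ ε : ℝ) (hκ : 0 ≤ κ) (hε : 0 < ε) (M : ℕ → ℕ) (a : ℕ → ℕ → ℤ)
    (ha : ∀ i, IsForm (M i) (a i)) :
    (∀ θ : ℝ, 0 < θ → θ < 1 → ∃ C c : ℝ, 0 < C ∧ 0 < c ∧ ∃ N₀ : ℕ, ∀ N : ℕ, N₀ ≤ N →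
      ∃ E : Set ℝ, MeasurableSet E ∧ volume E ≤ ENNReal.ofReal ((N : ℝ) ^ (1 - θ - c)) ∧
        ∀ y : ℝ, (N : ℝ) ^ (1 - θ) ≤ y → y ≤ 2 * (N : ℝ) ^ (1 - θ) → y ∉ E →
          (twistExceptions (Fails r κ ε a) ((N : ℝ) ^ θ) y ((N : ℝ) ^ c) (Real.log N ^ C) ((N : ℝ) ^ c) : ℝ) ≤
            (N : ℝ) ^ (θ - c)) ∧
    ∃ C c : ℝ, 0 < C ∧ 0 < c ∧ ∀ b : ℕ → ℝ, (∀ k, 1 ≤ b k ∧ (k : ℝ) ^ (1 / c) ≤ b k) →
      ∀ᵐ α : ℝ, 0 < α → ∀ᶠ k : ℕ in atTop, ∀ D : ℤ, D ≠ 0 → |(|(D : ℝ)|) - α * b k| ≤ b k ^ c →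
        ∀ x : ℕ, (Real.log |(D : ℝ)|) ^ C ≤ x → (x : ℝ) ≤ |(D : ℝ)| ^ c → ¬ Fails r κ ε a x D := by
  have hlaw := law r hr κ ε hκ hε M a ha
  refine ⟨fun θ hθ hθ1 => Pool.Agent.Q319.DR.twist_windows (Fails r κ ε a) hlaw θ hθ hθ1, ?_⟩
  obtain ⟨C, c, hC, hc, h⟩ := dilate_law _ hlaw
  refine ⟨C, c, hC, hc, fun b hb => ?_⟩
  filter_upwards [h b hb] with α hα hα0
  filter_upwards [hα hα0] with k hk D hD hDk x hx1 hx2 hf
  exact hk D hD hDk ⟨x, hx1, hx2, hf⟩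

end Pool.Agent.Results.MP_631487_nt.TwistsAtRealMultiples
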